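import Pool.Agent.U498.TX.Main

/-!
# Homeomorphisms which are not approximable by maps changing one coordinate

Let `G` be the group generated by the homeomorphisms of `E^n` which change only one coordinate.

(1) If a homeomorphism `h` of `E^n` is approximable by `G`, then `h` can be engulfed by smooth balls:
if `r < R` and `U` is an open set which contains the image under `h` of the closed ball of radius
`R`, then there is a smooth diffeomorphism `g` of `E^n` which maps this ball into `U`, and its
image contains the image under `h` of the ball of radius `r`.

(2) Let `U` be an open subset of `E^n` and `φ : E^n → U` a homeomorphism, and suppose that `U` is not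
diffeomorphic to `E^n`. Then there is a homeomorphism `h` of `E^n`, equal to `φ` on some ball, which
is not approximable by `G`, nor by `C^1` diffeomorphisms, on some bounded set. For `n = 4` there are
such sets `U`, the small exotic `ℝ⁴` (published theorems, not proved here).

Proof. Elements of `G` are limits of smooth diffeomorphisms (`LimitsOfDiffeomorphisms`). If `g` is
close to `h` on the ball of radius `R`, the image of the sphere of radius `R` under `g` does not meet
the connected set `h (B_r)`, and this gives (1). Brown's construction extends `φ`, restricted to a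
ball, to a homeomorphism `h` of `E^n`. If all these `h` are limits of diffeomorphisms, then all
compact subsets of `U` are engulfed by smooth open cells in `U`, and `U` is diffeomorphic to `E^n`
by the smooth monotone union theorem.

Library: helper721 (Brown's construction, `Pool/Agent/H721R2/Brown.lean`), helper522, helper496,
helper784, helper248 (smooth monotone union theorem, Palais' extension theorem), and the files
`Pool/Agent/U498/TA` of the project TA. Written by helper498.
-/

set_option autoImplicit false

open Set Filter Topology Metric Function
open scoped ContDiff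

namespace Pool.Agent.Results.MP_0907b2_gt.ExoticOpenCells

open Pool.Agent.U498.TA Pool.Agent.U498.TX

/-- (1) Approximable homeomorphisms are engulfed by smooth balls. (2) An open set which is
homeomorphic, but not diffeomorphic to `E^n` gives a homeomorphism which is not approximable. -/
theorem result (n : ℕ) :
    (∀ h : E n ≃ₜ E n, Approx (Subgroup.closure (TypeA n)) h →
      ∀ (r R : ℝ) (U : Set (E n)), 0 < r → r < R → IsOpen U → h '' closedBall 0 R ⊆ U →
        ∃ g : E n ≃ₜ E n, IsDiffeo ∞ g ∧ g '' closedBall 0 R ⊆ U ∧
          h '' closedBall 0 r ⊆ g '' ball 0 R) ∧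
    (∀ (U : Set (E n)) (φ : E n ≃ₜ U), IsOpen U → ¬ IsDiffeoToSpace U →
      ∃ (R : ℝ) (h : E n ≃ₜ E n), (∀ x, ‖x‖ ≤ R → h x = φ x) ∧
        ∃ B : Set (E n), Bornology.IsBounded B ∧ ∃ ε > 0, ∀ g : E n ≃ₜ E n,
          g ∈ Subgroup.closure (TypeA n) ∨ IsDiffeo 1 g → ∃ p ∈ B, ε ≤ ‖g p - h p‖) := by
  refine ⟨fun h hh r R U hr hrR hU hhU => ?_, fun U φ hU hex => negated U hU φ hex⟩
  obtain ⟨ε, hε, h1⟩ := near_ball h hr hrR hU hhU
  have h0 : Lim {d : E n ≃ₜ E n | IsDiffeo ∞ d} h := ((fin_tfae h).out 0 1).1 hh
  obtain ⟨g, hg, hgh⟩ := h0 R ε hε
  obtain ⟨h2, h3⟩ := h1 g hgh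
  exact ⟨g, hg, h2, h3⟩

end Pool.Agent.Results.MP_0907b2_gt.ExoticOpenCells
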