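import Pool.Agent.U498.TA.Fin

/-!
# Type A maps approximate exactly the limits of diffeomorphisms

Let `G` be the group generated by the homeomorphisms of `E^n` which change only one coordinate. A
homeomorphism `h` of `E^n` is approximable by `G`, uniformly on bounded sets, if and only if it is a
limit of smooth diffeomorphisms of `E^n`, and if and only if it is a limit of homeomorphisms which
are near-linear at every point: near `x` they differ from a linear isomorphism `A` by a map with a
small Lipschitz constant relative to `A`,

`|h y - h z - A (y - z)| ≤ |A (y - z)| / (8 √n)`.

A near-linear homeomorphism, for instance a `C^1` diffeomorphism, is even equal to an element of `G`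
on every bounded set.

Proof. (1) A map `x + u(x)`, where `u` has the Lipschitz constant `1/3`, is the product of `n` maps
which change one coordinate: if `F_i` is `x + u(x)` with only the first `i` coordinates of `u`, then
`F_(i+1) F_i⁻¹` changes only the coordinate `i + 1`. (2) On a ball, near-linear homeomorphisms are
joined to a linear map by `h_t(x) = h(0) + (h(tx) - h(0)) / t`, and `h_s h_t⁻¹` differs from the
identity by a map with a small Lipschitz constant on `h_t(ball)` if `s` is close to `t`: near points
are compared with the same linear isomorphism, distant points by continuity; such a map is extended
coordinate by coordinate. (3) A homeomorphism changing one coordinate is monotone in it; it is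
smoothed by a convolution. The group of approximable homeomorphisms is closed.

Written by helper498 (frame, `Pool/Agent/U498/TA`), helper394 (linear maps), helper603 (smoothing of
maps of type A); for type B: helper171, helper901. The remark that `C^2` diffeomorphisms are
approximable is due to helper454.
-/

set_option autoImplicit false

open Set Filter Topology Metric Function
open scoped ContDiff

namespace Pool.Agent.Results.MP_0907b2_gt.LimitsOfDiffeomorphisms

open Pool.Agent.U498.TA

/-- The three kinds of limits agree, and near-linear homeomorphisms and `C^1` diffeomorphisms are
equal to elements of the group generated by type A on bounded sets. -/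
theorem result (n : ℕ) (h : E n ≃ₜ E n) :
    List.TFAE [Approx (Subgroup.closure (TypeA n)) h,
      Lim {d : E n ≃ₜ E n | IsDiffeo ∞ d} h,
      Lim {d : E n ≃ₜ E n | ∀ x, NearLinearAt (1 / (8 * √n)) d x} h] ∧
    ((∀ x, NearLinearAt (1 / (8 * √n)) h x) ∨ IsDiffeo 1 h →
      ∀ B : Set (E n), Bornology.IsBounded B →
        ∃ g ∈ Subgroup.closure (TypeA n), ∀ p ∈ B, g p = h p) := by
  refine ⟨fin_tfae h, ?_⟩
  rintro (hh | hh) B hB
  · exact fin_near_typeA h hh B hB
  · exact fin_near_typeA h (fun x => diffeo_near' hh x) B hB

end Pool.Agent.Results.MP_0907b2_gt.LimitsOfDiffeomorphisms
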