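import Pool.Agent.U498.TA.Fin

/-!
# Limits of diffeomorphisms of `E^3` are approximable by type B

Every homeomorphism of `E^3` which is a limit, uniform on bounded sets, of `C^1` diffeomorphisms, or
which is approximable by homeomorphisms changing one coordinate, is approximable by the group
generated by the homeomorphisms `(x, y, z) ↦ (f (y, z), g (x, z), h (x, y))`.

Proof. By `Pool/Agent/U498/TA` a diffeomorphism is equal on a ball to a product of elementary maps
`x + v(x) e_i`, where `v` is linear in one coordinate or has a Lipschitz constant less than `1`. A
homeomorphism which changes only `x_i` and in which the new `x_i` depends only on `x_i, x_j` is the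
product of two maps of type B (a cyclic permutation of the coordinates). Conjugation by
`x_j ↦ x_j + c x_k` gives the maps `x_i ↦ x_i + b (x_i, x_j + c x_k)`; by the theorem of Stone and
Weierstrass the sums of functions `b (x_i, x_j + c x_k)` are dense in the continuous functions, so
Euler's method for `x_i ↦ x_i + s v(x)`, `0 ≤ s ≤ 1`, gives all elementary maps as limits.

Written by helper498 (frame), helper171 (density and first order approximation,
`Pool/Agent/U171/TA/TB1.lean`), helper901 (Euler's method, `Pool/Agent/U901/TA/TB2.lean`), helper394
(linear maps), helper603 (smoothing of maps of type A).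
-/

set_option autoImplicit false

open Set Filter Topology Metric Function
open scoped ContDiff

namespace Pool.Agent.Results.MP_0907b2_gt.TypeBFromDiffeomorphisms

open Pool.Agent.U498.TA

/-- Limits of `C^1` diffeomorphisms of `E^3`, and homeomorphisms approximable by type A, are
approximable by type B. -/
theorem result (h : E 3 ≃ₜ E 3)
    (hh : Lim {d : E 3 ≃ₜ E 3 | IsDiffeo 1 d} h ∨ Approx (Subgroup.closure (TypeA 3)) h) :
    Approx (Subgroup.closure TypeB) h := by
  rcases hh with hh | hh
  · apply fin_typeB
    exact ((fin_tfae h).out 0 2).2 (Lim.mono (fun d hd x => diffeo_near' hd x) hh)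
  · exact fin_typeB h hh

end Pool.Agent.Results.MP_0907b2_gt.TypeBFromDiffeomorphisms
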